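import Pool.Agent.TH550.NRZ.Unif

/-!
# Elimination of arbitrary numbers with weights

A weighted pigeonhole principle and the product inequality for linearly independent near relations.
-/

set_option autoImplicit false

namespace Pool.Agent.TH550.NRZ

open Real Set Pool.Agent.TH647.NR Pool.Agent.W472.AC

theorem one_le_prod_real {n : ℕ} (h : Fin n → ℝ) (h1 : ∀ i, 1 ≤ h i) : 1 ≤ ∏ k, h k := by
  calc (1 : ℝ) = ∏ _k : Fin n, (1 : ℝ) := by simp
    _ ≤ ∏ k, h k := Finset.prod_le_prod (fun _ _ => zero_le_one) (fun i _ => h1 i)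

/-- **Weighted Siegel lemma** (pigeonhole principle). -/
theorem siegel_weighted (r : ℕ) (E : Fin (r + 1) → Fin r → ℤ) (h : Fin (r + 1) → ℝ)
    (h1 : ∀ i, 1 ≤ h i) (hE : ∀ i j, |(E i j : ℝ)| ≤ h i) :
    ∃ l : Fin (r + 1) → ℤ, l ≠ 0 ∧ (∀ j, ∑ i, l i * E i j = 0) ∧
      ∀ i, |(l i : ℝ)| * h i ≤ ((2 * r + 3 : ℕ) : ℝ) ^ r * ∏ k, h k := by
  set H : ℝ := ∏ k, h k with hH
  set C : ℝ := ((2 * r + 3 : ℕ) : ℝ) ^ r with hC
  have hh0 : ∀ i, 0 < h i := fun i => lt_of_lt_of_le one_pos (h1 i)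
  have hH1 : 1 ≤ H := by
    rw [hH]
    exact one_le_prod_real _ h1
  have hC1 : 1 ≤ C := by
    rw [hC]
    apply one_le_pow₀
    norm_cast
    omega
  have hCH : 1 ≤ C * H := by nlinarith
  set B : Fin (r + 1) → ℕ := fun i => ⌊C * H / h i⌋₊ with hB
  have hBle : ∀ i, (B i : ℝ) * h i ≤ C * H := fun i => by
    have := Nat.floor_le (show 0 ≤ C * H / h i from (div_pos (by linarith) (hh0 i)).le)
    rwa [le_div_iff₀ (hh0 i)] at this
  -- the box of the values
  set S : ℕ := ⌊((r : ℝ) + 1) * (C * H)⌋₊ with hS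
  have hSle : (S : ℝ) ≤ ((r : ℝ) + 1) * (C * H) := Nat.floor_le (by positivity)
  set D : Finset (Fin (r + 1) → ℕ) := Fintype.piFinset fun i => Finset.range (B i + 1) with hD
  set V : Finset (Fin r → ℤ) := Fintype.piFinset fun _ => Finset.Icc (-(S : ℤ)) S with hV
  set F : (Fin (r + 1) → ℕ) → (Fin r → ℤ) := fun x j => ∑ i, (x i : ℤ) * E i j with hF
  have hmaps : ∀ x ∈ D, F x ∈ V := by
    intro x hx
    rw [hV, Fintype.mem_piFinset]
    intro j
    have hb : |((F x j : ℤ) : ℝ)| ≤ ((r : ℝ) + 1) * (C * H) := by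
      simp only [hF]
      push_cast
      calc |∑ i, (x i : ℝ) * (E i j : ℝ)| ≤ ∑ i, |(x i : ℝ) * (E i j : ℝ)| :=
            Finset.abs_sum_le_sum_abs _ _
        _ ≤ ∑ _i : Fin (r + 1), C * H := by
            refine Finset.sum_le_sum fun i _ => ?_
            rw [abs_mul, Nat.abs_cast]
            have h2 : (x i : ℝ) ≤ B i := by
              have := Fintype.mem_piFinset.1 hx i
              rw [Finset.mem_range] at this
              exact_mod_cast Nat.lt_succ_iff.1 this
            calc (x i : ℝ) * |(E i j : ℝ)| ≤ (B i : ℝ) * h i := by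
                  gcongr
                  exact hE i j
              _ ≤ C * H := hBle i
        _ = ((r : ℝ) + 1) * (C * H) := by
            rw [Finset.sum_const, Finset.card_univ, Fintype.card_fin, nsmul_eq_mul]
            push_cast
            ring
    have hb2 : (F x j).natAbs ≤ S := by
      rw [hS]
      apply Nat.le_floor
      rw [Nat.cast_natAbs]
      push_cast
      exact hb
    rw [Finset.mem_Icc]
    omega
  have hcardV : (V.card : ℝ) ≤ (((2 * r + 3 : ℕ) : ℝ) * (C * H)) ^ r := by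
    rw [hV, Fintype.card_piFinset]
    push_cast
    rw [Finset.prod_const, Finset.card_univ, Fintype.card_fin]
    have h2 : ((Finset.Icc (-(S : ℤ)) S).card : ℝ) ≤ (2 * r + 3) * (C * H) := by
      rw [Int.card_Icc]
      have h3 : ((S : ℤ) + 1 - (-(S : ℤ))).toNat = 2 * S + 1 := by omega
      rw [h3]
      push_cast
      nlinarith
    exact pow_le_pow_left₀ (by positivity) h2 r
  have hcardD : (C * H) ^ (r + 1) / H < (D.card : ℝ) := by
    rw [hD, Fintype.card_piFinset]
    push_cast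
    have h2 : (C * H) ^ (r + 1) / H = ∏ i, (C * H / h i) := by
      rw [Finset.prod_div_distrib, Finset.prod_const, Finset.card_univ, Fintype.card_fin, ← hH]
    rw [h2]
    refine Finset.prod_lt_prod_of_nonempty (fun i _ => div_pos (by linarith) (hh0 i))
      (fun i _ => ?_) ⟨0, Finset.mem_univ _⟩
    rw [Finset.card_range]
    push_cast
    exact Nat.lt_floor_add_one _
  have hlt : V.card < D.card := by
    have h2 : (((2 * r + 3 : ℕ) : ℝ) * (C * H)) ^ r = (C * H) ^ (r + 1) / H := by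
      rw [mul_pow, ← hC, eq_div_iff (by linarith)]
      ring
    have h3 : (V.card : ℝ) < D.card := by
      calc (V.card : ℝ) ≤ _ := hcardV
        _ = _ := h2
        _ < _ := hcardD
    exact_mod_cast h3
  obtain ⟨x, hx, y, hy, hne, hxy⟩ := Finset.exists_ne_map_eq_of_card_lt_of_maps_to hlt hmaps
  refine ⟨fun i => (x i : ℤ) - y i, ?_, ?_, ?_⟩
  · intro h0
    apply hne
    funext i
    have := congrFun h0 i
    simp only [Pi.zero_apply] at this
    omega
  · intro j
    have := congrFun hxy j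
    simp only [hF] at this
    simp only [sub_mul, Finset.sum_sub_distrib]
    linarith
  · intro i
    have hx2 : (x i : ℝ) ≤ B i := by
      have := Fintype.mem_piFinset.1 hx i
      rw [Finset.mem_range] at this
      exact_mod_cast Nat.lt_succ_iff.1 this
    have hy2 : (y i : ℝ) ≤ B i := by
      have := Fintype.mem_piFinset.1 hy i
      rw [Finset.mem_range] at this
      exact_mod_cast Nat.lt_succ_iff.1 this
    have h2 : |(((x i : ℤ) - (y i : ℤ) : ℤ) : ℝ)| ≤ B i := by
      push_cast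
      rw [abs_le]
      have hx0 : (0 : ℝ) ≤ x i := Nat.cast_nonneg _
      have hy0 : (0 : ℝ) ≤ y i := Nat.cast_nonneg _
      constructor <;> linarith
    calc |(((x i : ℤ) - (y i : ℤ) : ℤ) : ℝ)| * h i ≤ (B i : ℝ) * h i := by
          gcongr
          exact (hh0 i).le
      _ ≤ C * H := hBle i

/-- **Product inequality.** If `θ` has a measure of linear independence of exponent `μ`, then for all
real `t_1, …, t_r` and all `r + 1` linearly independent integer vectors `(a_i, e_i)` of heights at most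
`h_i` the values `L_i = a_i · θ + e_i · t` satisfy `∑ |L_i| / h_i ≥ c' ∏ h_i ^ (-(μ + 1))`. -/
theorem product_ineq {m : ℕ} (θ : Fin (m + 1) → ℝ) (μ c : ℝ) (hμ : 0 ≤ μ) (hc : 0 < c)
    (hθ : Meas θ μ c) (r : ℕ) : ∃ c' : ℝ, 0 < c' ∧ ∀ (t : Fin r → ℝ)
      (a : Fin (r + 1) → Fin (m + 1) → ℤ) (e : Fin (r + 1) → Fin r → ℤ),
      LinearIndependent ℤ (fun i => (a i, e i)) → ∀ h : Fin (r + 1) → ℝ, (∀ i, 1 ≤ h i) →
      (∀ i j, |(a i j : ℝ)| ≤ h i) → (∀ i j, |(e i j : ℝ)| ≤ h i) →
      c' * ∏ i, h i ^ (-(μ + 1)) ≤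
        ∑ i, |(∑ j, (a i j : ℝ) * θ j) + ∑ j, (e i j : ℝ) * t j| / h i := by
  set C : ℝ := ((2 * r + 3 : ℕ) : ℝ) ^ r with hC
  have hC1 : 1 ≤ C := by
    rw [hC]
    apply one_le_pow₀
    norm_cast
    omega
  refine ⟨c / (C * (((r : ℝ) + 1) * C) ^ μ), by positivity, ?_⟩
  intro t a e hli h h1 ha he
  have hh0 : ∀ i, 0 < h i := fun i => lt_of_lt_of_le one_pos (h1 i)
  obtain ⟨l, hl0, hl, hlb⟩ := siegel_weighted r e h h1 he
  set H : ℝ := ∏ k, h k with hH
  have hH1 : 1 ≤ H := by
    rw [hH]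
    exact one_le_prod_real _ h1
  set A : Fin (m + 1) → ℤ := fun j => ∑ i, l i * a i j with hA
  have hA0 : A ≠ 0 := by
    intro hcon
    apply hl0
    have h2 : ∑ i, l i • (a i, e i) = 0 := by
      rw [Prod.ext_iff]
      constructor
      · rw [Prod.fst_sum]
        funext j
        rw [Finset.sum_apply]
        have := congrFun hcon j
        simpa [hA] using this
      · rw [Prod.snd_sum]
        funext j
        rw [Finset.sum_apply]
        have := hl j
        simpa using this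
    have := Fintype.linearIndependent_iff.1 hli l h2
    funext i
    exact this i
  have hAb : ∀ j, |(A j : ℝ)| ≤ ((r : ℝ) + 1) * C * H := by
    intro j
    simp only [hA]
    push_cast
    calc |∑ i, (l i : ℝ) * (a i j : ℝ)| ≤ ∑ i, |(l i : ℝ) * (a i j : ℝ)| :=
          Finset.abs_sum_le_sum_abs _ _
      _ ≤ ∑ _i : Fin (r + 1), C * H := by
          refine Finset.sum_le_sum fun i _ => ?_
          rw [abs_mul]
          calc |(l i : ℝ)| * |(a i j : ℝ)| ≤ |(l i : ℝ)| * h i := by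
                gcongr
                exact ha i j
            _ ≤ C * H := hlb i
      _ = ((r : ℝ) + 1) * C * H := by
          rw [Finset.sum_const, Finset.card_univ, Fintype.card_fin, nsmul_eq_mul]
          push_cast
          ring
  have hbig : 1 ≤ ((r : ℝ) + 1) * C * H := by
    have h2 : 1 ≤ ((r : ℝ) + 1) * C := by nlinarith [Nat.cast_nonneg (α := ℝ) r]
    nlinarith
  have hm := hθ A hA0 (((r : ℝ) + 1) * C * H) hbig hAb
  have hsum : ∑ j, (A j : ℝ) * θ j =
      ∑ i, (l i : ℝ) * ((∑ j, (a i j : ℝ) * θ j) + ∑ j, (e i j : ℝ) * t j) := by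
    have h2 : ∑ i, (l i : ℝ) * ∑ j, (e i j : ℝ) * t j = 0 := by
      calc ∑ i, (l i : ℝ) * ∑ j, (e i j : ℝ) * t j
          = ∑ j, (∑ i, (l i : ℝ) * (e i j : ℝ)) * t j := by
            simp only [Finset.mul_sum, Finset.sum_mul]
            rw [Finset.sum_comm]
            refine Finset.sum_congr rfl fun j _ => Finset.sum_congr rfl fun i _ => ?_
            ring
        _ = 0 := by
            refine Finset.sum_eq_zero fun j _ => ?_
            have h3 : (∑ i, (l i : ℝ) * (e i j : ℝ)) = 0 := by exact_mod_cast hl j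
            rw [h3, zero_mul]
    simp only [mul_add, Finset.sum_add_distrib]
    rw [h2, add_zero]
    simp only [hA]
    push_cast
    simp only [Finset.mul_sum, Finset.sum_mul]
    rw [Finset.sum_comm]
    refine Finset.sum_congr rfl fun i _ => Finset.sum_congr rfl fun j _ => ?_
    ring
  have hup : |∑ j, (A j : ℝ) * θ j| ≤ C * H *
      ∑ i, |(∑ j, (a i j : ℝ) * θ j) + ∑ j, (e i j : ℝ) * t j| / h i := by
    rw [hsum, Finset.mul_sum]
    refine (Finset.abs_sum_le_sum_abs _ _).trans (Finset.sum_le_sum fun i _ => ?_)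
    rw [abs_mul, mul_div_assoc', le_div_iff₀ (hh0 i)]
    calc |(l i : ℝ)| * |(∑ j, (a i j : ℝ) * θ j) + ∑ j, (e i j : ℝ) * t j| * h i
        = (|(l i : ℝ)| * h i) * |(∑ j, (a i j : ℝ) * θ j) + ∑ j, (e i j : ℝ) * t j| := by ring
      _ ≤ (C * H) * |(∑ j, (a i j : ℝ) * θ j) + ∑ j, (e i j : ℝ) * t j| :=
          mul_le_mul_of_nonneg_right (hlb i) (abs_nonneg _)
  set T : ℝ := ∑ i, |(∑ j, (a i j : ℝ) * θ j) + ∑ j, (e i j : ℝ) * t j| / h i with hT
  have hprod : ∏ i, h i ^ (-(μ + 1)) = H ^ (-(μ + 1)) := by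
    rw [hH, Real.finsetProd_rpow]
    intro i _
    exact (hh0 i).le
  rw [hprod]
  have hHp : 0 < H := by linarith
  have hCp : 0 < C := by linarith
  have hq : (0 : ℝ) < ((r : ℝ) + 1) * C := by positivity
  have h5 : c ≤ (((r : ℝ) + 1) * C) ^ μ * H ^ μ * (C * H * T) := by
    calc c ≤ (((r : ℝ) + 1) * C * H) ^ μ * |∑ j, (A j : ℝ) * θ j| := hm
      _ ≤ (((r : ℝ) + 1) * C * H) ^ μ * (C * H * T) := by gcongr
      _ = _ := by rw [Real.mul_rpow hq.le hHp.le]
  have h6 : H ^ (-(μ + 1)) = (H ^ μ * H)⁻¹ := by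
    rw [Real.rpow_neg hHp.le, Real.rpow_add hHp, Real.rpow_one]
  rw [h6, div_mul_eq_mul_div, div_le_iff₀ (by positivity)]
  have h7 : 0 < H ^ μ * H := by positivity
  rw [← div_eq_mul_inv, div_le_iff₀ h7]
  calc c ≤ (((r : ℝ) + 1) * C) ^ μ * H ^ μ * (C * H * T) := h5
    _ = T * (C * (((r : ℝ) + 1) * C) ^ μ) * (H ^ μ * H) := by ring

end Pool.Agent.TH550.NRZ
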