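import Pool.Agent.TH647.NR.Lin

/-!
# Near relations with one arbitrary number: bounds that are uniform in that number

The counting lemma and the gap argument of `Pool.Agent.TH647.NR` with a constant that does not
depend on the arbitrary number `t`.
-/

set_option autoImplicit false

namespace Pool.Agent.TH550.NRZ

open Real Set Pool.Agent.TH647.NR Pool.Agent.W472.AC

/-- If the heights of the elements of `S` grow at least like `h ↦ C h^γ`, then there are at most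
`log log X / log ρ + C'` elements of height at most `X`, for every `ρ < γ`; the constant `C'` does
not depend on the set `S`. -/
theorem count_unif {α : Type*} (h : α → ℝ) (hfin : ∀ X : ℝ, {x | h x ≤ X}.Finite)
    (C γ ρ : ℝ) (hC : 0 < C) (hρ : 1 < ρ) (hργ : ρ < γ) :
    ∃ C' : ℝ, ∀ S : Set α,
      (∀ x ∈ S, ∀ y ∈ S, x ≠ y → h x ≤ h y → 1 ≤ h x → C * h x ^ γ ≤ h y) →
      ∀ X : ℝ, 3 ≤ X → {x ∈ S | h x ≤ X}.Finite ∧
      ({x ∈ S | h x ≤ X}.ncard : ℝ) ≤ log (log X) / log ρ + C' := by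
  have hlρ : 0 < log ρ := Real.log_pos hρ
  -- threshold
  obtain ⟨H₀, hH3, hH0⟩ : ∃ H₀ : ℝ, 3 ≤ H₀ ∧ ∀ H : ℝ, H₀ ≤ H → H ^ ρ ≤ C * H ^ γ := by
    have h1 := tendsto_rpow_atTop (show 0 < γ - ρ by linarith)
    have h2 := h1.eventually_ge_atTop (1 / C)
    obtain ⟨a, ha⟩ := Filter.eventually_atTop.1 h2
    refine ⟨max a 3, le_max_right _ _, fun H hH => ?_⟩
    have hH3 : 3 ≤ H := (le_max_right _ _).trans hH
    have hH0 : 0 < H := by linarith
    have h3 := ha H ((le_max_left _ _).trans hH)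
    rw [div_le_iff₀ hC] at h3
    have h4 : H ^ γ = H ^ ρ * H ^ (γ - ρ) := by
      rw [← Real.rpow_add hH0]; congr 1; ring
    rw [h4]
    have h5 : 0 < H ^ ρ := Real.rpow_pos_of_pos hH0 _
    nlinarith
  have hlog3 : 1 < log 3 := by
    have h1 : Real.exp 1 < 3 := by
      have := Real.exp_one_lt_d9
      linarith
    have := Real.log_lt_log (Real.exp_pos 1) h1
    rwa [Real.log_exp] at this
  have hll : ∀ H : ℝ, 3 ≤ H → 0 < log (log H) := by
    intro H hH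
    apply Real.log_pos
    exact hlog3.trans_le (Real.log_le_log (by norm_num) hH)
  obtain ⟨N₀, hN₀⟩ : ∃ N₀ : ℕ, N₀ = {x | h x ≤ H₀}.ncard := ⟨_, rfl⟩
  refine ⟨N₀ + 1, fun S hgap X hX => ?_⟩
  have hfinS : ∀ X : ℝ, {x ∈ S | h x ≤ X}.Finite := fun X => (hfin X).subset fun x hx => hx.2
  refine ⟨hfinS X, ?_⟩
  have hsub : {x ∈ S | h x ≤ X} ⊆ {x | h x ≤ H₀} ∪ {x ∈ S | H₀ ≤ h x ∧ h x ≤ X} := by
    rintro x ⟨hx, hxX⟩
    rcases le_total (h x) H₀ with h1 | h1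
    · exact Or.inl h1
    · exact Or.inr ⟨hx, h1, hxX⟩
  have hfin2 : {x ∈ S | H₀ ≤ h x ∧ h x ≤ X}.Finite :=
    (hfinS X).subset fun x hx => ⟨hx.1, hx.2.2⟩
  -- the big elements
  have hbig : ({x ∈ S | H₀ ≤ h x ∧ h x ≤ X}.ncard : ℝ) ≤ log (log X) / log ρ + 1 := by
    set g : α → ℕ := fun x => ⌊log (log (h x)) / log ρ⌋₊ with hg
    have hmaps : ∀ x ∈ {x ∈ S | H₀ ≤ h x ∧ h x ≤ X},
        g x ∈ (Finset.range (⌊log (log X) / log ρ⌋₊ + 1) : Set ℕ) := by
      rintro x ⟨hx, hx1, hx2⟩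
      rw [Finset.coe_range, Set.mem_Iio, Nat.lt_succ_iff]
      refine Nat.floor_le_floor ?_
      gcongr
      · have : 1 < log (h x) := hlog3.trans_le (Real.log_le_log (by norm_num) (hH3.trans hx1))
        linarith
      · linarith
    have hinj : Set.InjOn g {x ∈ S | H₀ ≤ h x ∧ h x ≤ X} := by
      have key : ∀ x ∈ {x ∈ S | H₀ ≤ h x ∧ h x ≤ X}, ∀ y ∈ {x ∈ S | H₀ ≤ h x ∧ h x ≤ X},
          x ≠ y → h x ≤ h y → g x ≠ g y := by
        rintro x ⟨hx, hx1, hx2⟩ y ⟨hy, hy1, hy2⟩ hne hxy heq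
        have h1 := hgap x hx y hy hne hxy (by linarith)
        have h2 := hH0 (h x) hx1
        have hx0 : 0 < h x := by linarith
        have h3 : ρ * log (h x) ≤ log (h y) := by
          rw [← Real.log_rpow hx0]
          exact Real.log_le_log (Real.rpow_pos_of_pos hx0 _) (h2.trans h1)
        have hlx : 1 < log (h x) := hlog3.trans_le (Real.log_le_log (by norm_num) (hH3.trans hx1))
        have h4 : log ρ + log (log (h x)) ≤ log (log (h y)) := by
          rw [← Real.log_mul (by linarith) (by linarith)]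
          exact Real.log_le_log (by nlinarith) h3
        have h5 : log (log (h x)) / log ρ + 1 ≤ log (log (h y)) / log ρ := by
          rw [← div_self hlρ.ne', ← add_div]
          gcongr
          linarith
        have h6 : 0 ≤ log (log (h x)) / log ρ :=
          div_nonneg (hll _ (hH3.trans hx1)).le hlρ.le
        have h7 : g x + 1 ≤ g y := by
          simp only [hg]
          rw [← Nat.floor_add_one h6]
          exact Nat.floor_le_floor h5
        omega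
      intro x hx y hy hgxy
      by_contra hne
      rcases le_total (h x) (h y) with h1 | h1
      · exact key x hx y hy hne h1 hgxy
      · exact key y hy x hx (Ne.symm hne) h1 hgxy.symm
    have h1 := Set.ncard_le_ncard_of_injOn g hmaps hinj (Finset.finite_toSet _)
    rw [Set.ncard_coe_finset, Finset.card_range] at h1
    have h2 : ((⌊log (log X) / log ρ⌋₊ : ℕ) : ℝ) ≤ log (log X) / log ρ :=
      Nat.floor_le (div_nonneg (hll X hX).le hlρ.le)
    have h3 : ({x ∈ S | H₀ ≤ h x ∧ h x ≤ X}.ncard : ℝ) ≤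
      ((⌊log (log X) / log ρ⌋₊ + 1 : ℕ) : ℝ) := by exact_mod_cast h1
    push_cast at h3
    linarith
  have h1 : ({x ∈ S | h x ≤ X}.ncard : ℝ) ≤ (N₀ : ℝ) + ({x ∈ S | H₀ ≤ h x ∧ h x ≤ X}.ncard : ℝ) := by
    have h2 := Set.ncard_le_ncard hsub ((hfin H₀).union hfin2)
    have h3 := Set.ncard_union_le {x | h x ≤ H₀} {x ∈ S | H₀ ≤ h x ∧ h x ≤ X}
    rw [hN₀]
    exact_mod_cast h2.trans h3
  linarith

/-- **Near relations are sparse**, uniformly in `t`. -/
theorem sparse_unif {m : ℕ} (θ : Fin (m + 1) → ℝ) (μ c : ℝ) (hμ : 0 ≤ μ) (hc : 0 < c)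
    (hθ : Meas θ μ c) (w ρ : ℝ) (hw : 2 * μ + 1 < w) (hρ : 1 < ρ) (hρw : ρ < (w - μ) / (μ + 1)) :
    ∃ C : ℝ, ∀ t X : ℝ, 3 ≤ X →
      {v ∈ {v : (Fin (m + 1) → ℤ) × ℤ | 0 < v.2 ∧ Prim v ∧ |lin θ t v| ≤ ‖v‖ ^ (-w)} |
        ‖v‖ ≤ X}.Finite ∧
      ({v ∈ {v : (Fin (m + 1) → ℤ) × ℤ | 0 < v.2 ∧ Prim v ∧ |lin θ t v| ≤ ‖v‖ ^ (-w)} |
        ‖v‖ ≤ X}.ncard : ℝ) ≤ log (log X) / log ρ + C := by
  have hμ1 : 0 < μ + 1 := by linarith
  have hγ : 1 < (w - μ) / (μ + 1) := by rw [lt_div_iff₀ hμ1]; linarith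
  obtain ⟨C, hC⟩ := count_unif (α := (Fin (m + 1) → ℤ) × ℤ) (fun v => ‖v‖)
    (fun X => finite_ball X)
    ((c / 2 ^ (μ + 1)) ^ (1 / (μ + 1))) ((w - μ) / (μ + 1)) ρ (by positivity) hρ hρw
  refine ⟨C, fun t => hC _ ?_⟩
  rintro v ⟨hv0, hvp, hvL⟩ v' ⟨hv0', hvp', hvL'⟩ hne hle h1
  set h : ℝ := ‖v‖ with hh
  set h' : ℝ := ‖v'‖ with hh'
  have hh0 : 0 < h := by linarith
  have hh0' : 0 < h' := by linarith
  -- the eliminated form
  set a : Fin (m + 1) → ℤ := fun i => v'.2 * v.1 i - v.2 * v'.1 i with ha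
  have ha0 : a ≠ 0 := by
    intro hcon
    apply hne
    refine eq_of_prop v v' hv0 hv0' (fun i => ?_) hvp hvp'
    have := congrFun hcon i
    simp only [ha, Pi.zero_apply] at this
    linarith
  have hbv : |(v.2 : ℝ)| ≤ h := norm_snd_le' v
  have hbv' : |(v'.2 : ℝ)| ≤ h' := norm_snd_le' v'
  have hab : ∀ i, |(a i : ℝ)| ≤ 2 * (h * h') := by
    intro i
    simp only [ha]
    push_cast
    have h2 : |(v.1 i : ℝ)| ≤ h := abs_fst_le v i
    have h2' : |(v'.1 i : ℝ)| ≤ h' := abs_fst_le v' i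
    calc |(v'.2 : ℝ) * v.1 i - v.2 * v'.1 i| ≤ |(v'.2 : ℝ) * v.1 i| + |(v.2 : ℝ) * v'.1 i| :=
          abs_sub _ _
      _ ≤ h' * h + h * h' := by
          rw [abs_mul, abs_mul]
          gcongr
      _ = _ := by ring
  have hm := hθ a ha0 (2 * (h * h')) (by nlinarith) hab
  have hsum : ∑ i, (a i : ℝ) * θ i = v'.2 * lin θ t v - v.2 * lin θ t v' := by
    unfold lin
    simp only [ha]
    rw [mul_add, mul_add, Finset.mul_sum, Finset.mul_sum]
    have : ∑ i, ((v'.2 * v.1 i - v.2 * v'.1 i : ℤ) : ℝ) * θ i =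
        ∑ i, (v'.2 : ℝ) * ((v.1 i : ℝ) * θ i) - ∑ i, (v.2 : ℝ) * ((v'.1 i : ℝ) * θ i) := by
      rw [← Finset.sum_sub_distrib]
      refine Finset.sum_congr rfl fun i _ => ?_
      push_cast
      ring
    rw [this]
    ring
  have hup : |∑ i, (a i : ℝ) * θ i| ≤ 2 * (h' * h ^ (-w)) := by
    rw [hsum]
    have h3 : h' ^ (-w) ≤ h ^ (-w) :=
      Real.rpow_le_rpow_of_nonpos hh0 hle (by linarith)
    have h4 : 0 ≤ h' ^ (-w) := by positivity
    have h5 : 0 ≤ h ^ (-w) := by positivity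
    calc |(v'.2 : ℝ) * lin θ t v - v.2 * lin θ t v'|
        ≤ |(v'.2 : ℝ) * lin θ t v| + |(v.2 : ℝ) * lin θ t v'| := abs_sub _ _
      _ ≤ h' * h ^ (-w) + h * h' ^ (-w) := by
          rw [abs_mul, abs_mul]
          gcongr
      _ ≤ h' * h ^ (-w) + h' * h ^ (-w) := by gcongr
      _ = _ := by ring
  -- conclusion
  have hA : (2 * (h * h')) ^ μ = 2 ^ μ * (h ^ μ * h' ^ μ) := by
    rw [Real.mul_rpow (by norm_num) (by positivity), Real.mul_rpow hh0.le hh0'.le]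
  have h6 : c ≤ 2 ^ (μ + 1) * (h ^ (μ - w) * h' ^ (μ + 1)) := by
    calc c ≤ (2 * (h * h')) ^ μ * |∑ i, (a i : ℝ) * θ i| := hm
      _ ≤ (2 * (h * h')) ^ μ * (2 * (h' * h ^ (-w))) := by gcongr
      _ = _ := by
          rw [hA, Real.rpow_add (by norm_num : (0 : ℝ) < 2), Real.rpow_one,
            show μ - w = μ + -w by ring, Real.rpow_add hh0, Real.rpow_add hh0', Real.rpow_one]
          ring
  have h7 : c / 2 ^ (μ + 1) * h ^ (w - μ) ≤ h' ^ (μ + 1) := by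
    have h8 : h ^ (μ - w) * h ^ (w - μ) = 1 := by
      rw [← Real.rpow_add hh0]; simp
    have h2p : (0 : ℝ) < 2 ^ (μ + 1) := by positivity
    rw [div_mul_eq_mul_div, div_le_iff₀ h2p]
    calc c * h ^ (w - μ) ≤ (2 ^ (μ + 1) * (h ^ (μ - w) * h' ^ (μ + 1))) * h ^ (w - μ) := by gcongr
      _ = 2 ^ (μ + 1) * h' ^ (μ + 1) * (h ^ (μ - w) * h ^ (w - μ)) := by ring
      _ = _ := by rw [h8]; ring
  have h8 : (c / 2 ^ (μ + 1) * h ^ (w - μ)) ^ (1 / (μ + 1)) ≤ (h' ^ (μ + 1)) ^ (1 / (μ + 1)) :=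
    Real.rpow_le_rpow (by positivity) h7 (by positivity)
  rw [Real.mul_rpow (by positivity) (by positivity), ← Real.rpow_mul hh0.le,
    ← Real.rpow_mul hh0'.le, mul_one_div, mul_one_div, div_self hμ1.ne', Real.rpow_one] at h8
  exact h8

/-- a bound for rational approximations to `z` is a measure of linear independence of `1, z` -/
theorem meas_of_exponent (z μ : ℝ) (hμ : 0 ≤ μ) (h : ∃ c : ℝ, 0 < c ∧ ∀ (p : ℤ) (q : ℕ), 0 < q →
    c / (q : ℝ) ^ (μ + 1) ≤ |z - (p : ℝ) / q|) : ∃ c : ℝ, 0 < c ∧ Meas ![1, z] μ c := by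
  obtain ⟨c, hc, h⟩ := h
  refine ⟨min c 1, lt_min hc one_pos, fun a ha H hH hb => ?_⟩
  have hs : ∑ j, (a j : ℝ) * (![1, z] : Fin 2 → ℝ) j = (a 0 : ℝ) + a 1 * z := by
    rw [Fin.sum_univ_two]; simp
  rw [hs]
  have hHμ : 1 ≤ H ^ μ := Real.one_le_rpow hH hμ
  by_cases h1 : a 1 = 0
  · have h0 : a 0 ≠ 0 := by
      intro h0
      apply ha
      funext i
      fin_cases i
      · exact h0
      · exact h1
    have h2 : (1 : ℝ) ≤ |(a 0 : ℝ)| := by
      have : (1 : ℤ) ≤ |a 0| := Int.one_le_abs h0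
      exact_mod_cast this
    rw [h1]
    simp only [Int.cast_zero, zero_mul, add_zero]
    calc min c 1 ≤ 1 * 1 := by rw [one_mul]; exact min_le_right _ _
      _ ≤ H ^ μ * |(a 0 : ℝ)| := by gcongr
  · have hq : 0 < (a 1).natAbs := Int.natAbs_pos.2 h1
    have hqr : (0 : ℝ) < ((a 1).natAbs : ℝ) := by exact_mod_cast hq
    have hqa : ((a 1).natAbs : ℝ) = |(a 1 : ℝ)| := by
      rw [Nat.cast_natAbs]; push_cast; rfl
    have h2 := h (-(a 1).sign * a 0) (a 1).natAbs hq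
    have h6 : |((a 1).sign : ℝ)| = 1 := by
      rcases lt_or_gt_of_ne h1 with h4 | h4
      · rw [Int.sign_eq_neg_one_of_neg h4]; norm_num
      · rw [Int.sign_eq_one_of_pos h4]; norm_num
    have hsg : ((a 1).sign : ℝ) * ((a 1).natAbs : ℝ) = a 1 := by
      rw [hqa]
      have := Int.sign_mul_natAbs (a 1)
      exact_mod_cast this
    have hsg2 : ((a 1).sign : ℝ) * ((a 1).sign : ℝ) = 1 := by
      rcases lt_or_gt_of_ne h1 with h4 | h4
      · rw [Int.sign_eq_neg_one_of_neg h4]; norm_num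
      · rw [Int.sign_eq_one_of_pos h4]; norm_num
    have h5 : (a 0 : ℝ) + a 1 * z =
        ((a 1).sign : ℝ) * (((a 1).natAbs : ℝ) *
          (z - ((-(a 1).sign * a 0 : ℤ) : ℝ) / ((a 1).natAbs : ℝ))) := by
      rw [mul_sub, mul_div_cancel₀ _ hqr.ne']
      push_cast
      calc (a 0 : ℝ) + a 1 * z = (((a 1).sign : ℝ) * ((a 1).natAbs : ℝ)) * z +
            (((a 1).sign : ℝ) * ((a 1).sign : ℝ)) * a 0 := by rw [hsg, hsg2]; ring
        _ = _ := by ring
    have h3 : |(a 0 : ℝ) + a 1 * z| =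
        ((a 1).natAbs : ℝ) * |z - ((-(a 1).sign * a 0 : ℤ) : ℝ) / ((a 1).natAbs : ℝ)| := by
      rw [h5, abs_mul, h6, one_mul, abs_mul, abs_of_pos hqr]
    rw [h3]
    have hqH : ((a 1).natAbs : ℝ) ≤ H := by rw [hqa]; exact hb 1
    calc min c 1 ≤ c := min_le_left _ _
      _ = ((a 1).natAbs : ℝ) ^ μ * (((a 1).natAbs : ℝ) *
            (c / ((a 1).natAbs : ℝ) ^ (μ + 1))) := by
          rw [Real.rpow_add hqr, Real.rpow_one]
          have : ((a 1).natAbs : ℝ) ^ μ ≠ 0 := (Real.rpow_pos_of_pos hqr _).ne'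
          field_simp
      _ ≤ H ^ μ * (((a 1).natAbs : ℝ) *
            |z - ((-(a 1).sign * a 0 : ℤ) : ℝ) / ((a 1).natAbs : ℝ)|) := by
          gcongr

end Pool.Agent.TH550.NRZ
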